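import Mathlib
import Pool.Agent.H331G.Step
import Pool.Agent.H331G.Rec

/-!
# Rates of the pure greedy algorithm for `λ`-quasi-orthogonal dictionaries

`gamma H m lam` is the supremum of the errors `‖f - G_m(f, D)‖` over all `lam`-quasi-orthogonal
dictionaries `D` in `H`, all `f` in `A_1(D)` and all realizations of the pure greedy algorithm.
-/

set_option autoImplicit false

open Pool.Agent.H331G

namespace Pool.Agent.Results.MP_d42a57_an.QuasiOrthogonalRates

/-- The supremum of the error `‖f - G_m(f, D)‖ = ‖f_m‖` of the pure greedy algorithm after `m`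
steps, over all `lam`-quasi-orthogonal dictionaries `D`, all `f = f 0` in `A_1(D)` and all
realizations. -/
noncomputable def gamma (H : Type) [NormedAddCommGroup H] [InnerProductSpace ℝ H] (m : ℕ)
    (lam : ℝ) : ENNReal :=
  ⨆ (D : Set H) (f : ℕ → H) (_ : IsDictionary D ∧ IsQuasiOrthogonal D lam ∧ f 0 ∈ A1 D ∧
    IsGreedy D f m), ENNReal.ofReal ‖f m‖

/-- (1) `γ(m, 1) ≤ 5 (1 + log m) m ^ (-1/2)`; (2) for `λ > 1` there is a constant `C = C(λ)` with
`γ(m, λ) ≤ C m ^ (-1 / (2 λ))`. -/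
theorem result :
    (∀ (H : Type) [NormedAddCommGroup H] [InnerProductSpace ℝ H] [CompleteSpace H] (m : ℕ),
      1 ≤ m → gamma H m 1 ≤ ENNReal.ofReal (5 * (1 + Real.log m) * (m : ℝ) ^ (-(1 / 2 : ℝ)))) ∧
    ∀ lam : ℝ, 1 < lam → ∃ C : ℝ, 0 < C ∧
      ∀ (H : Type) [NormedAddCommGroup H] [InnerProductSpace ℝ H] [CompleteSpace H] (m : ℕ),
        1 ≤ m → gamma H m lam ≤ ENNReal.ofReal (C * (m : ℝ) ^ (-(1 / (2 * lam)))) := by
  constructor
  · intro H _ _ _ m hm
    refine iSup_le fun D => iSup_le fun f => iSup_le fun h => ENNReal.ofReal_le_ofReal ?_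
    obtain ⟨⟨hD, -⟩, hQ, hf, hG⟩ := h
    obtain ⟨h0, h1, hrec⟩ := seq_rec le_rfl hD hQ hf hG
      (fun k => if k ≤ m then ‖f k‖ ^ 2 else 0) (fun k => rfl)
    have hb := rec_one h1 (by simpa only [one_mul] using hrec) m hm
    rw [if_pos le_rfl] at hb
    have hm0 : (0 : ℝ) < m := by exact_mod_cast hm
    have hlog : 0 ≤ Real.log m := Real.log_natCast_nonneg m
    have h2 : ((m : ℝ) ^ (-(1 / 2 : ℝ))) ^ 2 = 1 / m := by
      rw [← Real.rpow_natCast, ← Real.rpow_mul hm0.le]
      norm_num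
      exact Real.rpow_neg_one _
    refine le_of_sq_le_sq ?_ (by positivity)
    rw [mul_pow, h2]
    refine hb.trans ?_
    rw [mul_one_div]
    gcongr
    nlinarith [sq_nonneg (1 + Real.log m)]
  · intro lam hlam
    have hl0 : 0 < lam := by linarith
    obtain ⟨C, hC, hCa⟩ := rec_lt (s := 1 / lam) (by positivity)
      (by rw [div_lt_one hl0]; exact hlam)
    refine ⟨Real.sqrt C, Real.sqrt_pos.2 hC, fun H _ _ _ m hm => ?_⟩
    refine iSup_le fun D => iSup_le fun f => iSup_le fun h => ENNReal.ofReal_le_ofReal ?_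
    obtain ⟨⟨hD, -⟩, hQ, hf, hG⟩ := h
    obtain ⟨h0, h1, hrec⟩ := seq_rec hlam.le hD hQ hf hG
      (fun k => if k ≤ m then ‖f k‖ ^ 2 else 0) (fun k => rfl)
    have hb := hCa _ h0 h1 (fun k n hn => by
      have h3 := hrec k n hn
      have h4 : ∀ x : ℝ, x / (lam * ((n : ℝ) + k)) = 1 / lam * x / (n + k) := by
        intro x
        have : (0 : ℝ) < (n : ℝ) + k := by
          have : (0 : ℝ) < n := by exact_mod_cast hn
          positivity
        field_simp
      rw [h4] at h3
      exact h3) m hm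
    rw [if_pos le_rfl] at hb
    have hm0 : (0 : ℝ) < m := by exact_mod_cast hm
    have h2 : ((m : ℝ) ^ (-(1 / (2 * lam)))) ^ 2 = (m : ℝ) ^ (-(1 / lam)) := by
      rw [← Real.rpow_natCast, ← Real.rpow_mul hm0.le]
      congr 1
      field_simp
      norm_num
    refine le_of_sq_le_sq ?_ (by positivity)
    rw [mul_pow, h2, Real.sq_sqrt hC.le]
    exact hb

end Pool.Agent.Results.MP_d42a57_an.QuasiOrthogonalRates
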